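import Pool.Agent.H211R2.MC.Rep
import Pool.Agent.Helper998.DualRep

set_option autoImplicit false

/-! The bond matroid of a two-connected multigraph: representations, circuits, cocircuits. -/

namespace Pool.Agent.Run7.h468.BondMat

open Set H211.MC Pool.Agent.Helper998.VecMatroid Pool.Agent.Helper998.DualRep

variable {n m : ℕ} (a b : Fin m → Fin n)

/-- incidence vectors -/
def vv (F : Type) [Field F] (e : Fin m) : Fin n → F := Pi.single (a e) 1 - Pi.single (b e) 1

lemma dual_vv (F : Type) [Field F] (g : Module.Dual F (Fin n → F)) (e : Fin m) :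
    g (vv a b F e) = g (Pi.single (a e) 1) - g (Pi.single (b e) 1) := by
  rw [vv, map_sub]

/-- the cut of a vertex set -/
def isC (S : Set (Fin n)) (e : Fin m) : Prop := (a e ∈ S ∧ b e ∉ S) ∨ (a e ∉ S ∧ b e ∈ S)

lemma exists_cut (F : Type) [Field F] (I : Set (Fin m)) :
    (∃ f : Module.Dual F (Fin n → F), (∃ i, f (vv a b F i) ≠ 0) ∧ {i | f (vv a b F i) ≠ 0} ⊆ I) ↔
      ∃ S : Set (Fin n), (∃ e, isC a b S e) ∧ {e | isC a b S e} ⊆ I := by
  classical
  constructor
  · rintro ⟨f, ⟨i, hi⟩, hs⟩
    rw [dual_vv] at hi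
    refine ⟨{u | f (Pi.single u 1) = f (Pi.single (a i) 1)}, ⟨i, Or.inl ⟨rfl, ?_⟩⟩, ?_⟩
    · intro h
      apply hi
      rw [mem_ofPred_eq] at h
      rw [h, sub_self]
    · intro e he
      apply hs
      rw [mem_ofPred_eq, dual_vv]
      intro h
      have h2 : f (Pi.single (a e) 1) = f (Pi.single (b e) 1) := sub_eq_zero.1 h
      rcases he with ⟨h3, h4⟩ | ⟨h3, h4⟩
      · apply h4
        rw [mem_ofPred_eq] at h3 ⊢
        rw [← h2, h3]
      · apply h3
        rw [mem_ofPred_eq] at h4 ⊢
        rw [h2, h4]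
  · rintro ⟨S, ⟨i, hi⟩, hs⟩
    let f : Module.Dual F (Fin n → F) :=
      ∑ u ∈ Finset.univ.filter (fun u => u ∈ S), LinearMap.proj (R := F) (φ := fun _ : Fin n => F) u
    have hf : ∀ u, f (Pi.single u 1) = if u ∈ S then 1 else 0 := by
      intro u
      simp only [f, LinearMap.sum_apply, LinearMap.proj_apply, Pi.single_apply]
      rw [Finset.sum_ite_eq']
      simp
    have hf2 : ∀ e, f (vv a b F e) ≠ 0 ↔ isC a b S e := by
      intro e
      rw [dual_vv, hf, hf]
      unfold isC
      by_cases h1 : a e ∈ S <;> by_cases h2 : b e ∈ S <;> simp [h1, h2]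
    refine ⟨f, ⟨i, (hf2 i).2 hi⟩, ?_⟩
    intro e he
    exact hs ((hf2 e).1 he)

/-- the bond matroid, built over a field -/
noncomputable def BM (F : Type) [Field F] : Matroid (Fin m) := (vecMatroid F (vv a b F))✶

lemma BM_E (F : Type) [Field F] : (BM a b F).E = Set.univ := rfl

lemma BM_indep (F : Type) [Field F] (I : Set (Fin m)) :
    (BM a b F).Indep I ↔ ¬ ∃ S : Set (Fin n), (∃ e, isC a b S e) ∧ {e | isC a b S e} ⊆ I := by
  rw [← exists_cut a b F I, ← not_spanning_compl_iff, not_not, BM]
  rw [← Matroid.coindep_def, Matroid.coindep_iff_compl_spanning (Set.subset_univ _)]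
  rw [vecMatroid_E, ← Set.compl_eq_univ_sdiff]

lemma BM_eq (F K : Type) [Field F] [Field K] : BM a b F = BM a b K := by
  refine Matroid.ext_indep (by rw [BM_E, BM_E]) ?_
  intro I _
  rw [BM_indep, BM_indep]

lemma BM_rep (F : Type) [Field F] : Representable F (BM a b F) := by
  obtain ⟨k, φ, h⟩ := dual_rep (F := F) (vv a b F)
  exact ⟨k, φ, fun I _ => h I⟩

lemma BM_rep' (F K : Type) [Field F] [Field K] : Representable K (BM a b F) := by
  rw [BM_eq a b F K]; exact BM_rep a b K

/-- the combinatorial form of two-connectivity that is used -/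
structure TwoConn : Prop where
  ne : ∀ e, a e ≠ b e
  conn : ∀ P : Set (Fin n), P.Nonempty → (∀ e, a e ∈ P ↔ b e ∈ P) → P = Set.univ
  conn' : ∀ v, ∀ P : Set (Fin n), v ∉ P → P.Nonempty →
    (∀ e, a e ≠ v → b e ≠ v → (a e ∈ P ↔ b e ∈ P)) → P = {v}ᶜ
  two : ∀ e, ∀ v, (a e = v ∨ b e = v) → ∃ e', e' ≠ e ∧ (a e' = v ∨ b e' = v)
  star : ∀ v, ∃ e, a e = v ∨ b e = v

variable {a b}

/-- stars are bonds -/
lemma star_circuit (h : TwoConn a b) (F : Type) [Field F] (v : Fin n) :
    (BM a b F).IsCircuit {e | a e = v ∨ b e = v} := by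
  classical
  let f : Module.Dual F (Fin n → F) := LinearMap.proj (R := F) (φ := fun _ : Fin n => F) v
  have hf : ∀ e, f (vv a b F e) ≠ 0 ↔ (a e = v ∨ b e = v) := by
    intro e
    rw [dual_vv]
    simp only [f, LinearMap.proj_apply, Pi.single_apply]
    have := h.ne e
    by_cases h1 : v = a e
    · subst h1
      simp [this]
    · by_cases h2 : v = b e
      · subst h2
        simp [this, this.symm]
      · simp [h1, h2, Ne.symm h1, Ne.symm h2]
  have hcoc : (vecMatroid F (vv a b F)).IsCocircuit {i | f (vv a b F i) ≠ 0} := by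
    apply isCocircuit_of_minimal
    · obtain ⟨e, he⟩ := h.star v
      exact ⟨e, (hf e).2 he⟩
    · rintro g ⟨i, hi⟩ hsub j hj
      have hP := h.conn' v {u | g (Pi.single u 1) ≠ g (Pi.single v 1)} (by simp) ?_ ?_
      · rw [hf] at hj
        rw [dual_vv, sub_ne_zero]
        rcases hj with h1 | h1
        · have : b j ∈ ({v}ᶜ : Set (Fin n)) := by
            intro h2
            exact h.ne j (h1.trans (mem_singleton_iff.1 h2).symm)
          rw [← hP, mem_ofPred_eq] at this
          rw [h1]; exact this.symm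
        · have : a j ∈ ({v}ᶜ : Set (Fin n)) := by
            intro h2
            exact h.ne j ((mem_singleton_iff.1 h2).trans h1.symm)
          rw [← hP, mem_ofPred_eq] at this
          rw [h1]; exact this
      · have h1 := hsub i hi
        rw [hf] at h1
        rw [dual_vv, sub_ne_zero] at hi
        rcases h1 with h1 | h1
        · exact ⟨b i, by rw [mem_ofPred_eq, ← h1]; exact hi.symm⟩
        · exact ⟨a i, by rw [mem_ofPred_eq, ← h1]; exact hi⟩
      · intro e he1 he2
        have h0 : g (vv a b F e) = 0 := by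
          by_contra hne
          have := hsub e hne
          rw [hf] at this
          tauto
        rw [dual_vv, sub_eq_zero] at h0
        rw [mem_ofPred_eq, mem_ofPred_eq, h0]
  have : {i | f (vv a b F i) ≠ 0} = {e | a e = v ∨ b e = v} := by
    ext e
    exact hf e
  rw [this] at hcoc
  rw [BM]
  exact hcoc

lemma BM_good (h : TwoConn a b) (F : Type) [Field F] (e0 : Fin m) : Good (BM a b F) where
  fin := ⟨Set.toFinite _⟩
  ne := ⟨e0, Set.mem_univ _⟩
  ll := by
    intro e _
    haveI : (BM a b F).Finite := ⟨Set.toFinite _⟩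
    have hI : (BM a b F).Indep {e} := by
      apply (star_circuit h F (a e)).ssubset_indep
      obtain ⟨e', he', h2⟩ := h.two e (a e) (Or.inl rfl)
      rw [ssubset_iff_of_subset (by
        intro w hw
        rw [mem_singleton_iff.1 hw]
        exact Or.inl rfl)]
      exact ⟨e', h2, he'⟩
    rw [rk_indep _ hI, ncard_singleton]
  conn := by
    haveI : (BM a b F).Finite := ⟨Set.toFinite _⟩
    intro A hA hAne hBne
    by_contra hcon
    push Not at hcon
    have hEq : A ∪ ((BM a b F).E \ A) = (BM a b F).E := union_sdiff_cancel hA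
    have hside : ∀ v, {e | a e = v ∨ b e = v} ⊆ A ∨ {e | a e = v ∨ b e = v} ⊆ (BM a b F).E \ A :=
      fun v => skew_circuit (BM a b F) (A := A) (B := (BM a b F).E \ A) (by rw [hEq]; exact hcon)
        (star_circuit h F v) (by rw [hEq]; exact (star_circuit h F v).subset_ground)
    have hP := h.conn {v | {e | a e = v ∨ b e = v} ⊆ A} ?_ ?_
    · obtain ⟨e, he⟩ := hBne
      have h1 : a e ∈ {v | {e | a e = v ∨ b e = v} ⊆ A} := by rw [hP]; exact mem_univ _
      exact he.2 (h1 (Or.inl rfl))
    · obtain ⟨e, he⟩ := hAne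
      refine ⟨a e, ?_⟩
      rcases hside (a e) with h1 | h1
      · exact h1
      · exact absurd he (h1 (Or.inl rfl : a e = a e ∨ b e = a e)).2
    · intro e
      constructor
      · intro h1
        have he : e ∈ A := h1 (Or.inl rfl)
        rcases hside (b e) with h2 | h2
        · exact h2
        · exact absurd he (h2 (Or.inr rfl : a e = b e ∨ b e = b e)).2
      · intro h1
        have he : e ∈ A := h1 (Or.inr rfl)
        rcases hside (a e) with h2 | h2
        · exact h2
        · exact absurd he (h2 (Or.inl rfl : a e = a e ∨ b e = a e)).2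

lemma noSeven_of_reg {α : Type} {M : Matroid α} {K : Type} [Field K] (h2 : (2 : K) ≠ 0)
    (hb : Representable (ZMod 2) M) (hK : Representable K M) : NoSeven M := by
  intro X hX hs
  obtain ⟨V, _, _, u, hu⟩ := rep_contract hb hX
  have hF := seven_fano hu hs
  obtain ⟨V', _, _, u', hu'⟩ := rep_contract hK hX
  exact no_fano h2 hu' hF

/-- the double cover theorem for the bond matroid -/
theorem bm_cover (h : TwoConn a b) (e0 : Fin m) (c : ℕ) (hc2 : 2 ≤ c)
    (hc : ∀ C : Set (Fin m), (BM a b (ZMod 2)).IsCircuit C → C.ncard ≤ c) :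
    ∃ D : Fin c → Set (Fin m), (∀ i, (BM a b (ZMod 2)).IsCocircuit (D i)) ∧
      ∀ e, 2 ≤ {i : Fin c | e ∈ D i}.ncard := by
  haveI : Fact (Nat.Prime 2) := ⟨Nat.prime_two⟩
  have hG := BM_good h (ZMod 2) e0
  have hN : NoSeven (BM a b (ZMod 2)) :=
    noSeven_of_reg (K := ℚ) (by norm_num) (BM_rep' a b _ _) (BM_rep' a b _ _)
  obtain ⟨D, hD, hcov⟩ := cover _ (BM a b (ZMod 2)) hG hN (fun _ => 2) c rfl (fun _ _ => hc2) (by
    intro C hC
    rw [W_eq _ (Set.toFinite C), Finset.sum_const, smul_eq_mul,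
      ← ncard_eq_toFinset_card C (Set.toFinite C), mul_comm]
    exact Nat.mul_le_mul_left 2 (hc C hC))
  exact ⟨D, hD, fun e => hcov e (Set.mem_univ _)⟩

end Pool.Agent.Run7.h468.BondMat
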